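import Mathlib
import Pool.Agent.X21.Surplus

set_option autoImplicit false
open Finset

namespace Pool.Agent.Results.MP_04e67f_nt.AbundancyIncreases

open Pool.Agent.X21.Surplus

lemma h_tendsto (C : ℝ) : ∃ N0 : ℕ, ∀ n ∈ B1, N0 ≤ n → C ≤ h n := by
  obtain ⟨y, hy⟩ := H_P_unbounded (max 4 (4 * C))
  have hy := hy y le_rfl
  have hy4 : 4 ≤ H (P y) := le_trans (le_max_left _ _) hy
  have hyC : 4 * C ≤ H (P y) := le_trans (le_max_right _ _) hy
  refine ⟨4 * P y + 1, fun n hn hle => ?_⟩
  have h1 := record_S hy4 hn (by have := P_pos y; omega)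
  have hnr : (4:ℝ) * P y ≤ n := by
    have : 4 * P y ≤ n := by omega
    exact_mod_cast this
  have hn0 : (0:ℝ) < n := by
    have : 0 < n := by omega
    exact_mod_cast this
  have hSn := S_nonneg hn.2.1
  have hSP : 2 ≤ S (P y) := by unfold S; linarith
  have h2 : S (P y)^2 * (n / 2) ≤ (S n)^2 * n := by
    refine le_trans ?_ h1
    apply mul_le_mul_of_nonneg_left _ (by positivity)
    linarith
  have h3 : S (P y)^2 / 2 ≤ (S n)^2 := by
    have : S (P y)^2 / 2 * n ≤ (S n)^2 * n := by linarith
    exact le_of_mul_le_mul_right this hn0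
  have h4 : S (P y) / 2 ≤ S n := by
    by_contra hcon
    push Not at hcon
    nlinarith
  have h5 := h_ge_half_H hn.1
  unfold S at h4
  linarith

/-- `B1` (the odd non-deficient record setters for `g(n) = (∏_{p∣n} p/(p-1) - 2) √n`) is infinite, and
there are infinitely many indices `j` with `h(b_j) < h(b_{j+1})`. -/
theorem result : B1.Infinite ∧ {j : ℕ | h (b j) < h (b (j+1))}.Infinite := by
  refine ⟨B1_infinite, ?_⟩
  intro hfin
  obtain ⟨J, hJ⟩ := hfin.bddAbove
  -- beyond J the abundancy is non-increasing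
  have hmono : ∀ i, h (b (J + 1 + i)) ≤ h (b (J+1)) := by
    intro i
    induction i with
    | zero => simp
    | succ i ih =>
      have : ¬ (h (b (J + 1 + i)) < h (b (J + 1 + i + 1))) := by
        intro hlt
        have : J + 1 + i ≤ J := hJ hlt
        omega
      push Not at this
      exact le_trans this ih
  obtain ⟨N0, hN0⟩ := h_tendsto (h (b (J+1)) + 1)
  have h1 : N0 ≤ b (J + 1 + N0) := by
    have := b_strictMono.le_apply (x := J + 1 + N0)
    omega
  have h2 := hN0 _ (b_mem (J+1+N0)) h1
  have h3 := hmono N0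
  linarith

end Pool.Agent.Results.MP_04e67f_nt.AbundancyIncreases
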